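import Mathlib

/-!
# Monotonically Sokolov spaces are not preserved by continuous images

`X` is the one-point Lindelöfication of an uncountable discrete set, `Y` is the one-point
compactification of the Mrówka space of the branches of the binary tree.
-/

set_option autoImplicit false

open Set Filter Topology

namespace Pool.Agent.Results.MP_a45b15_gt.ContinuousImage

/-- A family `N` of subsets of `X` is an external network for `A ⊆ X`: for every `a ∈ A` and
every open `U` containing `a` there is a member of `N` that contains `a` and lies in `U`. -/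
def IsExternalNetwork {X : Type} [TopologicalSpace X] (N : Set (Set X)) (A : Set X) : Prop :=
  ∀ a ∈ A, ∀ U : Set X, IsOpen U → a ∈ U → ∃ M ∈ N, a ∈ M ∧ M ⊆ U

/-- `F` is a countable family of closed subsets of `X`. -/
def IsCountableClosedFamily {X : Type} [TopologicalSpace X] (F : Set (Set X)) : Prop :=
  F.Countable ∧ ∀ C ∈ F, IsClosed C

/-- The data in the definition of a monotonically Sokolov space: to every countable family `F` of
closed subsets of `X` one assigns a continuous retraction `r F : X → X` and a countable family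
`N F` of subsets of `X` such that `N F` is an external network for the image of `r F`, the map
`r F` sends every member of `F` into itself, and `F ⊆ G` implies `N F ⊆ N G`. -/
structure SokolovAssignment (X : Type) [TopologicalSpace X] where
  /-- the retraction assigned to a family -/
  r : Set (Set X) → X → X
  /-- the external network assigned to a family -/
  N : Set (Set X) → Set (Set X)
  continuous_r : ∀ F, IsCountableClosedFamily F → Continuous (r F)
  retraction_r : ∀ F, IsCountableClosedFamily F → ∀ x, r F (r F x) = r F x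
  countable_N : ∀ F, IsCountableClosedFamily F → (N F).Countable
  network_N : ∀ F, IsCountableClosedFamily F → IsExternalNetwork (N F) (range (r F))
  maps_r : ∀ F, IsCountableClosedFamily F → ∀ C ∈ F, r F '' C ⊆ C
  monotone_N : ∀ F G, IsCountableClosedFamily F → IsCountableClosedFamily G → F ⊆ G → N F ⊆ N G

/-- `X` is monotonically Sokolov (the definition of the problem). -/
def MonotonicallySokolov (X : Type) [TopologicalSpace X] : Prop :=
  Nonempty (SokolovAssignment X)

/-- The stronger property in which the assignment `F ↦ N F` is moreover required to commute with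
unions of increasing sequences of countable families of closed sets. -/
def OmegaMonotonicallySokolov (X : Type) [TopologicalSpace X] : Prop :=
  ∃ S : SokolovAssignment X, ∀ F : ℕ → Set (Set X), (∀ n, IsCountableClosedFamily (F n)) →
    Monotone F → S.N (⋃ n, F n) = ⋃ n, S.N (F n)

/-! ### The one-point Lindelöfication -/

section Lindelof

/-- The topology on `D ∪ {∞}` whose open sets are the sets that do not contain `∞` and the sets
that contain `∞` and have countable complement. -/
@[reducible]
def lindelofTop (D : Type) : TopologicalSpace (OnePoint D) where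
  IsOpen s := OnePoint.infty ∈ s → (sᶜ : Set (OnePoint D)).Countable
  isOpen_univ := fun _ => by simp
  isOpen_inter := fun s t hs ht h => by
    rw [compl_inter]
    exact (hs h.1).union (ht h.2)
  isOpen_sUnion := fun S hS h => by
    obtain ⟨t, ht, hinf⟩ := h
    exact (hS t ht hinf).mono (compl_subset_compl.2 (subset_sUnion_of_mem ht))

variable {D : Type}

theorem isOpen_lindelof {s : Set (OnePoint D)} :
    IsOpen[lindelofTop D] s ↔ (OnePoint.infty ∈ s → (sᶜ : Set (OnePoint D)).Countable) :=
  Iff.rfl

theorem isClosed_lindelof {s : Set (OnePoint D)} :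
    IsClosed[lindelofTop D] s ↔ (OnePoint.infty ∉ s → s.Countable) := by
  rw [← @isOpen_compl_iff _ _ (lindelofTop D), isOpen_lindelof, compl_compl]
  exact Iff.rfl

theorem t35_lindelof (D : Type) : @T35Space (OnePoint D) (lindelofTop D) := by
  let _ : TopologicalSpace (OnePoint D) := lindelofTop D
  have hcl : ∀ s : Set (OnePoint D), IsClosed s ↔ (OnePoint.infty ∉ s → s.Countable) :=
    fun s => isClosed_lindelof
  have hop : ∀ s : Set (OnePoint D), IsOpen s ↔ (OnePoint.infty ∈ s → sᶜ.Countable) :=
    fun s => isOpen_lindelof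
  have : T1Space (OnePoint D) := by
    refine ⟨fun x => ?_⟩
    rw [hcl]
    intro _
    exact countable_singleton x
  have : NormalSpace (OnePoint D) := by
    refine ⟨fun s t hs ht hst => ?_⟩
    by_cases h : OnePoint.infty ∈ s
    · -- then `t` is clopen
      have ht' : OnePoint.infty ∉ t := fun h' => (Set.disjoint_left.mp hst) h h'
      refine ⟨tᶜ, t, ht.isOpen_compl, ?_, ?_, subset_rfl, disjoint_compl_left⟩
      · rw [hop]
        intro h'
        exact absurd h' ht'
      · exact hst.subset_compl_right
    · refine ⟨s, sᶜ, ?_, hs.isOpen_compl, subset_rfl, ?_, disjoint_compl_right⟩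
      · rw [hop]
        intro h'
        exact absurd h' h
      · exact hst.subset_compl_left
  have : T4Space (OnePoint D) := {}
  infer_instance

theorem omegaMonotonicallySokolov_lindelof (D : Type) :
    @OmegaMonotonicallySokolov (OnePoint D) (lindelofTop D) := by
  classical
  let _ : TopologicalSpace (OnePoint D) := lindelofTop D
  have hcl : ∀ s : Set (OnePoint D), IsClosed s ↔ (OnePoint.infty ∉ s → s.Countable) :=
    fun s => isClosed_lindelof
  have hop : ∀ s : Set (OnePoint D), IsOpen s ↔ (OnePoint.infty ∈ s → sᶜ.Countable) :=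
    fun s => isOpen_lindelof
  -- the countable set attached to a family
  let A : Set (Set (OnePoint D)) → Set (OnePoint D) := fun F =>
    insert OnePoint.infty (⋃ C ∈ {C | C ∈ F ∧ OnePoint.infty ∉ C}, C)
  have hA : ∀ F, IsCountableClosedFamily F → (A F).Countable := by
    intro F hF
    refine Countable.insert _ ?_
    refine Countable.biUnion (hF.1.mono fun C hC => hC.1) ?_
    intro C hC
    exact (hcl C).1 (hF.2 C hC.1) hC.2
  have hAmono : ∀ F G : Set (Set (OnePoint D)), F ⊆ G → A F ⊆ A G := by
    intro F G hFG
    refine insert_subset_insert ?_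
    refine biUnion_subset_biUnion_left ?_
    intro C hC
    exact ⟨hFG hC.1, hC.2⟩
  let r : Set (Set (OnePoint D)) → OnePoint D → OnePoint D := fun F x =>
    if x ∈ A F then x else OnePoint.infty
  have hr_in : ∀ F x, x ∈ A F → r F x = x := fun F x hx => if_pos hx
  have hr_out : ∀ F x, x ∉ A F → r F x = OnePoint.infty := fun F x hx => if_neg hx
  have hr_mem : ∀ F x, r F x ∈ A F := by
    intro F x
    by_cases hx : x ∈ A F
    · rw [hr_in F x hx]; exact hx
    · rw [hr_out F x hx]; exact mem_insert _ _
  refine ⟨⟨r, fun F => (fun x => ({x} : Set (OnePoint D))) '' A F, ?_, ?_, ?_, ?_, ?_, ?_⟩, ?_⟩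
  · -- continuity
    intro F hF
    refine ⟨fun s hs => ?_⟩
    rw [hop]
    intro h
    have h1 : OnePoint.infty ∈ s := by
      have : r F OnePoint.infty = OnePoint.infty := hr_in F _ (mem_insert _ _)
      rw [← this]; exact h
    refine (hA F hF).mono ?_
    intro x hx
    by_contra hxA
    apply hx
    change r F x ∈ s
    rw [hr_out F x hxA]
    exact h1
  · intro F _ x
    exact hr_in F _ (hr_mem F x)
  · intro F hF
    exact (hA F hF).image _
  · rintro F hF a ⟨x, rfl⟩ U _ haU
    refine ⟨{r F x}, ⟨r F x, hr_mem F x, rfl⟩, rfl, ?_⟩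
    rintro y rfl
    exact haU
  · rintro F hF C hC y ⟨x, hx, rfl⟩
    by_cases hxA : x ∈ A F
    · rw [hr_in F x hxA]; exact hx
    · rw [hr_out F x hxA]
      by_contra hinf
      apply hxA
      refine mem_insert_of_mem _ ?_
      exact mem_biUnion (show C ∈ {C | C ∈ F ∧ OnePoint.infty ∉ C} from ⟨hC, hinf⟩) hx
  · intro F G _ _ hFG
    exact image_mono (hAmono F G hFG)
  · intro F hF hmono
    change (fun x => ({x} : Set (OnePoint D))) '' A (⋃ n, F n) =
      ⋃ n, (fun x => ({x} : Set (OnePoint D))) '' A (F n)
    rw [← image_iUnion]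
    congr 1
    refine Subset.antisymm ?_ (iUnion_subset fun n => hAmono _ _ (subset_iUnion F n))
    intro x hx
    rcases hx with rfl | hx
    · exact mem_iUnion.2 ⟨0, mem_insert _ _⟩
    · rw [mem_iUnion₂] at hx
      obtain ⟨C, ⟨hC, hinf⟩, hxC⟩ := hx
      obtain ⟨n, hn⟩ := mem_iUnion.1 hC
      refine mem_iUnion.2 ⟨n, mem_insert_of_mem _ ?_⟩
      exact mem_biUnion (show C ∈ {C | C ∈ F n ∧ OnePoint.infty ∉ C} from ⟨hn, hinf⟩) hxC

end Lindelof

/-! ### The Mrówka space of the binary tree -/

section Mrowka

/-- Nodes of the binary tree. -/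
abbrev Node : Type := Σ n : ℕ, (Fin n → Bool)

/-- The underlying set of the Mrówka space: nodes and branches of the binary tree. -/
inductive Psi : Type
  | node (s : Node) : Psi
  | branch (x : ℕ → Bool) : Psi

/-- The restriction of a branch to its first `n` entries. -/
def seg (x : ℕ → Bool) (n : ℕ) : Node := ⟨n, fun i => x i⟩

/-- Nodes are isolated; a neighbourhood of a branch contains all but finitely many of its
restrictions. -/
instance : TopologicalSpace Psi where
  IsOpen U := ∀ x, Psi.branch x ∈ U → ∀ᶠ n in atTop, Psi.node (seg x n) ∈ U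
  isOpen_univ := fun _ _ => Eventually.of_forall fun _ => mem_univ _
  isOpen_inter := fun _ _ hs ht x hx => (hs x hx.1).and (ht x hx.2)
  isOpen_sUnion := fun _ h x ⟨t, ht, hx⟩ =>
    (h t ht x hx).mono fun _ hn => mem_sUnion_of_mem hn ht

theorem isOpen_psi {U : Set Psi} :
    IsOpen U ↔ ∀ x, Psi.branch x ∈ U → ∀ᶠ n in atTop, Psi.node (seg x n) ∈ U := Iff.rfl

theorem seg_injective {x y : ℕ → Bool} {n : ℕ} (h : seg x n = seg y n) :
    ∀ i < n, x i = y i := by
  intro i hi
  have h1 : (fun i : Fin n => x i) = fun i : Fin n => y i := by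
    have := h
    simpa [seg] using this
  exact congrFun h1 ⟨i, hi⟩

theorem seg_length {x y : ℕ → Bool} {n m : ℕ} (h : seg x n = seg y m) : n = m :=
  congrArg Sigma.fst h

/-- The canonical compact open neighbourhood of a branch. -/
def K (x : ℕ → Bool) : Set Psi := insert (Psi.branch x) (range fun n => Psi.node (seg x n))

theorem isOpen_K (x : ℕ → Bool) : IsOpen (K x) := by
  rw [isOpen_psi]
  intro y _
  rename_i hy
  rcases hy with hy | ⟨n, hn⟩
  · cases hy
    exact Eventually.of_forall fun n => mem_insert_of_mem _ ⟨n, rfl⟩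
  · cases hn

theorem tendsto_seg (x : ℕ → Bool) :
    Tendsto (fun n => Psi.node (seg x n)) atTop (𝓝 (Psi.branch x)) := by
  intro s hs
  obtain ⟨t, hts, ht, hxt⟩ := mem_nhds_iff.1 hs
  exact (isOpen_psi.1 ht x hxt).mono fun n hn => hts hn

theorem isCompact_K (x : ℕ → Bool) : IsCompact (K x) :=
  (tendsto_seg x).isCompact_insert_range

theorem countable_K (x : ℕ → Bool) : (K x).Countable := (countable_range _).insert _

theorem isOpen_node (s : Node) : IsOpen ({Psi.node s} : Set Psi) := by
  rw [isOpen_psi]
  intro x hx
  cases hx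

theorem branch_mem_K {x y : ℕ → Bool} (h : Psi.branch y ∈ K x) : y = x := by
  rcases h with h | ⟨n, hn⟩
  · exact Psi.branch.inj h
  · cases hn

instance : T2Space Psi := by
  refine ⟨?_⟩
  -- a basic neighbourhood of a branch
  have hB : ∀ (x : ℕ → Bool) (m : ℕ),
      IsOpen (insert (Psi.branch x) ((fun n => Psi.node (seg x n)) '' Ici m) : Set Psi) := by
    intro x m
    rw [isOpen_psi]
    intro y hy
    rcases hy with hy | ⟨n, _, hn⟩
    · cases hy
      filter_upwards [eventually_ge_atTop m] with n hn
      exact mem_insert_of_mem _ ⟨n, hn, rfl⟩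
    · cases hn
  intro a b hab
  rcases a with s | x <;> rcases b with t | y
  · refine ⟨{Psi.node s}, {Psi.node t}, isOpen_node s, isOpen_node t, rfl, rfl, ?_⟩
    rw [Set.disjoint_singleton]
    exact hab
  · refine ⟨{Psi.node s}, _, isOpen_node s, hB y (s.1 + 1), rfl, mem_insert _ _, ?_⟩
    rw [Set.disjoint_left]
    rintro z hz (hz' | ⟨n, hn, hn'⟩)
    · rw [hz'] at hz; cases hz
    · rw [mem_singleton_iff] at hz
      rw [hz] at hn'
      have h1 : seg y n = s := Psi.node.inj hn'
      have h2 : n = s.1 := congrArg Sigma.fst h1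
      have h3 : s.1 + 1 ≤ n := hn
      omega
  · refine ⟨_, {Psi.node t}, hB x (t.1 + 1), isOpen_node t, mem_insert _ _, rfl, ?_⟩
    rw [Set.disjoint_right]
    rintro z hz (hz' | ⟨n, hn, hn'⟩)
    · rw [hz'] at hz; cases hz
    · rw [mem_singleton_iff] at hz
      rw [hz] at hn'
      have h1 : seg x n = t := Psi.node.inj hn'
      have h2 : n = t.1 := congrArg Sigma.fst h1
      have h3 : t.1 + 1 ≤ n := hn
      omega
  · have hxy : x ≠ y := fun h => hab (by rw [h])
    obtain ⟨i, hi⟩ := Function.ne_iff.1 hxy
    refine ⟨_, _, hB x (i + 1), hB y (i + 1), mem_insert _ _, mem_insert _ _, ?_⟩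
    rw [Set.disjoint_left]
    rintro z (hz | ⟨n, hn, hn'⟩) (hz' | ⟨m, hm, hm'⟩)
    · rw [hz] at hz'
      exact hab hz'
    · rw [hz] at hm'; cases hm'
    · rw [hz'] at hn'; cases hn'
    · rw [← hm'] at hn'
      have h1 : seg x n = seg y m := Psi.node.inj hn'
      have h2 : n = m := seg_length h1
      subst h2
      have h3 : i + 1 ≤ n := hn
      exact hi (seg_injective h1 i (by omega))

instance : WeaklyLocallyCompactSpace Psi := by
  refine ⟨fun a => ?_⟩
  rcases a with s | x
  · exact ⟨{Psi.node s}, isCompact_singleton, (isOpen_node s).mem_nhds rfl⟩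
  · exact ⟨K x, isCompact_K x, (isOpen_K x).mem_nhds (mem_insert _ _)⟩

/-- Compact subsets of the Mrówka space are countable. -/
theorem countable_of_isCompact {C : Set Psi} (hC : IsCompact C) : C.Countable := by
  have h : ∀ a : Psi, ∃ U ∈ 𝓝 a, U.Countable := by
    intro a
    rcases a with s | x
    · exact ⟨{Psi.node s}, (isOpen_node s).mem_nhds rfl, countable_singleton _⟩
    · exact ⟨K x, (isOpen_K x).mem_nhds (mem_insert _ _), countable_K x⟩
  choose U hU hUc using h
  obtain ⟨t, _, ht⟩ := hC.elim_nhds_subcover U fun a _ => hU a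
  exact (t.countable_toSet.biUnion fun a _ => hUc a).mono ht

end Mrowka

/-- The identity map from the one-point Lindelöfication onto the one-point compactification is
continuous. -/
theorem continuous_id_lindelof :
    @Continuous (OnePoint Psi) (OnePoint Psi) (lindelofTop Psi) inferInstance id := by
  rw [continuous_def]
  intro s hs
  rw [isOpen_lindelof]
  intro h
  have h1 : OnePoint.infty ∈ s := h
  have h2 := (OnePoint.isOpen_iff_of_mem h1).1 hs
  have h3 : ((↑) '' (((↑) ⁻¹' s)ᶜ : Set Psi) : Set (OnePoint Psi)).Countable :=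
    (countable_of_isCompact h2.2).image _
  refine h3.mono ?_
  intro y hy
  induction y using OnePoint.rec with
  | infty => exact absurd h1 hy
  | coe y => exact ⟨y, hy, rfl⟩

theorem not_monotonicallySokolov : ¬ MonotonicallySokolov (OnePoint Psi) := by
  rintro ⟨S⟩
  -- the family of the singletons of all nodes
  let F : Set (Set (OnePoint Psi)) := range fun s : Node => {((Psi.node s : Psi) : OnePoint Psi)}
  have hF : IsCountableClosedFamily F := by
    refine ⟨countable_range _, ?_⟩
    rintro _ ⟨s, rfl⟩
    exact isClosed_singleton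
  have hfix : ∀ s : Node, S.r F ((Psi.node s : Psi) : OnePoint Psi) = (Psi.node s : Psi) := by
    intro s
    have := S.maps_r F hF {((Psi.node s : Psi) : OnePoint Psi)} ⟨s, rfl⟩
    exact this ⟨_, rfl, rfl⟩
  have hbr : ∀ x : ℕ → Bool, S.r F ((Psi.branch x : Psi) : OnePoint Psi) = (Psi.branch x : Psi) := by
    intro x
    have h1 : Tendsto (fun n => ((Psi.node (seg x n) : Psi) : OnePoint Psi)) atTop
        (𝓝 ((Psi.branch x : Psi) : OnePoint Psi)) :=
      (OnePoint.continuous_coe.tendsto _).comp (tendsto_seg x)
    have h2 := ((S.continuous_r F hF).tendsto ((Psi.branch x : Psi) : OnePoint Psi)).comp h1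
    refine tendsto_nhds_unique h2 ?_
    refine h1.congr fun n => ?_
    exact (hfix _).symm
  have hnet : ∀ x : ℕ → Bool, ∃ M ∈ S.N F, ((Psi.branch x : Psi) : OnePoint Psi) ∈ M ∧
      M ⊆ (↑) '' K x := by
    intro x
    refine S.network_N F hF _ ⟨_, hbr x⟩ _ ?_ ⟨_, mem_insert _ _, rfl⟩
    exact OnePoint.isOpenEmbedding_coe.isOpenMap _ (isOpen_K x)
  choose M hM hxM hMK using hnet
  have hinj : Function.Injective M := by
    intro x y hxy
    have h1 : ((Psi.branch x : Psi) : OnePoint Psi) ∈ ((↑) '' K y : Set (OnePoint Psi)) :=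
      hMK y (hxy ▸ hxM x)
    obtain ⟨z, hz, hzx⟩ := h1
    have h2 : z = Psi.branch x := OnePoint.coe_injective hzx
    rw [h2] at hz
    exact branch_mem_K hz
  have hcount : (range M).Countable := (S.countable_N F hF).mono (range_subset_iff.2 hM)
  have h3 : Countable (ℕ → Bool) := by
    have := hcount.to_subtype
    exact (rangeFactorization_injective.2 hinj).countable
  obtain ⟨e, he⟩ := exists_surjective_nat (ℕ → Bool)
  obtain ⟨n, hn⟩ := he fun k => !(e k k)
  have h4 := congrFun hn n
  simp at h4

/-- **Continuous images of monotonically Sokolov spaces need not be monotonically Sokolov.**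
There are a Tychonoff space `X` and a compact Tychonoff space `Y` and a continuous surjection
`f : X → Y` such that `X` is monotonically Sokolov, even with an assignment `F ↦ N F` that
commutes with increasing countable unions, while `Y` is not monotonically Sokolov. -/
theorem result :
    ∃ (X Y : Type) (_ : TopologicalSpace X) (_ : TopologicalSpace Y) (f : X → Y),
      T35Space X ∧ T35Space Y ∧ CompactSpace Y ∧ Continuous f ∧ Function.Surjective f ∧
      MonotonicallySokolov X ∧ OmegaMonotonicallySokolov X ∧ ¬ MonotonicallySokolov Y :=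
  ⟨OnePoint Psi, OnePoint Psi, lindelofTop Psi, inferInstance, id, t35_lindelof Psi,
    inferInstance, inferInstance, continuous_id_lindelof, Function.surjective_id,
    ⟨(omegaMonotonicallySokolov_lindelof Psi).choose⟩, omegaMonotonicallySokolov_lindelof Psi,
    not_monotonicallySokolov⟩

end Pool.Agent.Results.MP_a45b15_gt.ContinuousImage
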